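import Pool.Agent.H.MP_c7c4cf_nt.dn.Unif
import Pool.Agent.H.MP_c7c4cf_nt.dn.LowX

/-!
Sum-free subsets relative to a dense set `A` of positive integers: the exact exponent for every
density.
-/

set_option autoImplicit false

open Finset

namespace Pool.Agent.Results.MP_c7c4cf_nt.DenseSets

/-- Let `m ≥ 1`. (1) Every `A ⊆ {1, …, N}` has a subset `B`, sum-free relative to `A`, with
`|A| - N / 2 ^ m ≤ 2 m |B| ^ m`. (2) For every `N ≥ 3` there is `A ⊆ {1, …, N}` with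
`|A| ≥ N / 2 ^ (m - 1)` such that every `B ⊆ A` which is sum-free relative to `A` has at most
`N ^ (1 / m) exp (100 √(m log N log log N))` elements. -/
theorem result (m : ℕ) (hm : 1 ≤ m) :
    (∀ (N : ℕ) (A : Finset ℕ), A ⊆ Icc 1 N →
      ∃ B ⊆ A, (∀ b ∈ B, ∀ b' ∈ B, b ≠ b' → b + b' ∉ A) ∧
        (A.card : ℝ) - N / 2 ^ m ≤ 2 * m * (B.card : ℝ) ^ m) ∧
    (∀ N : ℕ, 3 ≤ N → ∃ A : Finset ℕ, A ⊆ Icc 1 N ∧ (N : ℝ) / 2 ^ (m - 1) ≤ A.card ∧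
      ∀ B ⊆ A, (∀ b ∈ B, ∀ b' ∈ B, b ≠ b' → b + b' ∉ A) →
        (B.card : ℝ) ≤ (N : ℝ) ^ (1 / (m : ℝ)) *
          Real.exp (100 * √(m * Real.log N * Real.log (Real.log N)))) := by
  refine ⟨fun N A hA => Pool.MPc7c4cf.Dn.low_explicit m hm N A hA, fun N hN => ?_⟩
  obtain ⟨A, hA, hc, hB⟩ := Pool.MPc7c4cf.Dn.upper m N hm hN
  refine ⟨A, hA, ?_, hB⟩
  rw [div_le_iff₀ (by positivity), mul_comm]
  exact_mod_cast hc

end Pool.Agent.Results.MP_c7c4cf_nt.DenseSets
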