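import Pool.Agent.H.MP_c7c4cf_nt.Windows

/-!
Sum-free subsets relative to a set `A` of positive integers, and the dyadic windows met by `A`.
-/

set_option autoImplicit false

open Finset Pool.MPc7c4cf

namespace Pool.Agent.Results.MP_c7c4cf_nt.DyadicWindows

/-- Every set `A` of at least two positive integers has a subset `B`, sum-free relative to `A`, such
that for every positive function `ψ` which is additive on `A`: at most `90 |B| log₂ P` of the dyadic
windows met by `ψ (A)` are thin (for some `a` in the window at most `P` points of `A` are mapped to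
`[ψ a, ψ a + 2 ^ k / P)`), and `|A| ≤ 2 m |B| ^ m`, where `m` is the number of dyadic windows met by
`ψ (A)`. -/
theorem result (A : Finset ℕ) (hA : ∀ a ∈ A, 0 < a) (h2 : 2 ≤ A.card) :
    ∃ B ⊆ A, (∀ b ∈ B, ∀ b' ∈ B, b ≠ b' → b + b' ∉ A) ∧
      ∀ ψ : ℕ → ℝ, (∀ a ∈ A, 0 < ψ a) →
        (∀ a ∈ A, ∀ b ∈ A, a ≠ b → a + b ∈ A → ψ (a + b) = ψ a + ψ b) →
        (∀ P : ℕ, 2 ≤ P → ((thin A ψ P).card : ℝ) ≤ 90 * B.card * Real.logb 2 P) ∧
        A.card ≤ 2 * (dyadic A ψ).card * B.card ^ (dyadic A ψ).card := by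
  classical
  set F := A.powerset.filter fun B => ∀ b ∈ B, ∀ b' ∈ B, b ≠ b' → b + b' ∉ A with hF
  have hFne : F.Nonempty := ⟨∅, mem_filter.mpr ⟨empty_mem_powerset _, by simp⟩⟩
  obtain ⟨B, hBF, hmax⟩ := F.exists_max_image card hFne
  obtain ⟨hBA, hB⟩ := mem_filter.mp hBF
  rw [mem_powerset] at hBA
  have hl : ∀ B' ⊆ A, (∀ b ∈ B', ∀ b' ∈ B', b ≠ b' → b + b' ∉ A) → B'.card ≤ B.card :=
    fun B' hB' h => hmax B' (mem_filter.mpr ⟨mem_powerset.mpr hB', h⟩)
  have hl2 : 2 ≤ B.card := by
    have hne : A.Nonempty := card_pos.mp (by omega)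
    obtain ⟨b, hb, hbmax⟩ := A.exists_max_image id hne
    obtain ⟨a, ha⟩ : (A.erase b).Nonempty := by
      rw [← card_pos, card_erase_of_mem hb]
      omega
    obtain ⟨hab, haA⟩ := mem_erase.mp ha
    have hsum : a + b ∉ A := by
      intro h
      have h1 := hbmax _ h
      have h3 := hA a haA
      simp only [id] at h1
      omega
    have h4 := hl {a, b} (by
      intro x hx
      rcases mem_insert.mp hx with h | h
      · exact h ▸ haA
      · exact (mem_singleton.mp h) ▸ hb) (by
      intro x hx y hy hxy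
      rcases mem_insert.mp hx with h | h
      · rcases mem_insert.mp hy with h' | h'
        · exact absurd (h.trans h'.symm) hxy
        · rw [h, mem_singleton.mp h']
          exact hsum
      · rcases mem_insert.mp hy with h' | h'
        · rw [h', mem_singleton.mp h, add_comm]
          exact hsum
        · exact absurd ((mem_singleton.mp h).trans (mem_singleton.mp h').symm) hxy)
    rw [card_pair hab] at h4
    exact h4
  refine ⟨B, hBA, hB, fun ψ hpos hadd => ⟨fun P hP => ?_, trivial_bound hpos hadd _ hl2 hl⟩⟩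
  refine (thin_bound hpos hadd _ hl P (by omega)).trans ?_
  have h1 : (1 : ℝ) ≤ Nat.log 2 P := by
    exact_mod_cast Nat.log_pos (by norm_num) hP
  have h3 : (Nat.log 2 P : ℝ) ≤ Real.logb 2 P := by
    exact_mod_cast Real.natLog_le_logb P 2
  have h4 : (0 : ℝ) ≤ B.card := Nat.cast_nonneg _
  calc 6 * (B.card : ℝ) * (6 * Nat.log 2 P + 9) ≤ 6 * (B.card : ℝ) * (15 * Nat.log 2 P) :=
        mul_le_mul_of_nonneg_left (by linarith) (by positivity)
    _ = 90 * B.card * Nat.log 2 P := by ring
    _ ≤ _ := mul_le_mul_of_nonneg_left h3 (by positivity)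

end Pool.Agent.Results.MP_c7c4cf_nt.DyadicWindows
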