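import Pool.Agent.H.MP_c7c4cf_nt.helper38.Family

/-!
Sum-free subsets relative to a set `A` of positive integers which contains a layered family with a
model of given dimension.
-/

set_option autoImplicit false

open Finset Pool.MPc7c4cf.Layers

namespace Pool.Agent.Results.MP_c7c4cf_nt.LayerDimension

/-- Every finite set `A` of positive integers has a subset `B`, sum-free relative to `A`, such that
`|S 0| ≤ 24 D D₀ |B| (360 |B| (log₂ |A| + 1)) ^ d` for all layered families `S 0, S 1, ...` in `A`
with a model `φ` in `ℤ ^ d` whose first layer has density at least `1 / D₀` in a set `G` closed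
under midpoints and whose later layers are `D`-dense in the caps of their convex hulls (relative to
`G`). -/
theorem result (A : Finset ℕ) (hA : ∀ a ∈ A, 0 < a) :
    ∃ B ⊆ A, (∀ b ∈ B, ∀ b' ∈ B, b ≠ b' → b + b' ∉ A) ∧
      ∀ (d X D D₀ : ℕ) (S : ℕ → Finset ℕ) (φ : ℕ → Fin d → ℝ) (G : Finset (Fin d → ℤ)),
        1 ≤ D → Layered A X S φ → MidClosed G → (∀ b ∈ S 0, ∃ z ∈ G, φ b = toR z) →
        G.card ≤ D₀ * (S 0).card → (∀ j, CapDense D G ((S (j + 1)).image φ)) →
        (S 0).card ≤ 24 * D * D₀ * B.card * (360 * B.card * (Nat.log 2 A.card + 1)) ^ d := by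
  obtain ⟨B, hBA, hB, hl⟩ := exists_max A
  exact ⟨B, hBA, hB, fun d X D D₀ S φ G hD h hG hSG hD₀ hcap =>
    h.dimension_bound hA B.card hl G hSG hG D D₀ hD hD₀ hcap⟩

end Pool.Agent.Results.MP_c7c4cf_nt.LayerDimension
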